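import Pool.Agent.helper1.VD.SpecA2

/-!
# Project VD (MP_07c750_an), row vd:AWRB: the remainder of the eikonal equation vanishes to third order
-/

set_option autoImplicit false

open scoped ContDiff Topology InnerProductSpace ComplexConjugate ENNReal
open MeasureTheory Filter Set

namespace Pool.Agent.VD

noncomputable section

/-! ## Functions which vanish to third order -/

section van

variable {E F : Type} [NormedAddCommGroup E] [NormedSpace ℝ E] [NormedAddCommGroup F] [NormedSpace ℝ F]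

theorem AWRB_nat (k : ℕ) : ((k : ℕ) : WithTop ℕ∞) ≤ ((⊤ : ℕ∞) : WithTop ℕ∞) := WithTop.coe_le_coe.2 (le_top : (k : ℕ∞) ≤ ⊤)

theorem AWRB_mv (h : E → F) (r b : ℝ) (hr : 0 ≤ r) (hd : ∀ x : E, ‖x‖ ≤ r → DifferentiableAt ℝ h x)
    (hb : ∀ x : E, ‖x‖ ≤ r → ‖iteratedFDeriv ℝ 1 h x‖ ≤ b) (w : E) (hw : ‖w‖ ≤ r) : ‖h w - h 0‖ ≤ b * ‖w‖ := by
  have h1 := (convex_closedBall (0 : E) r).norm_image_sub_le_of_norm_fderiv_le (𝕜 := ℝ) (f := h) (C := b)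
      (fun x hx => hd x (by simpa using hx)) (fun x hx => by rw [← norm_iteratedFDeriv_one]; exact hb x (by simpa using hx))
      (x := 0) (y := w) (by simpa using hr) (by simpa using hw)
  rwa [sub_zero] at h1

/-- the third order Taylor estimate -/
theorem AWRB_taylor (f : E → F) (b : ℝ) (hf : ∀ v : E, ‖v‖ ≤ 1 → ContDiffAt ℝ ∞ f v)
    (hb : ∀ v : E, ‖v‖ ≤ 1 → ‖iteratedFDeriv ℝ 3 f v‖ ≤ b) (v : E) (hv : ‖v‖ ≤ 1) :
    ‖f v - (f 0 + fderiv ℝ f 0 v + (2 : ℝ)⁻¹ • fderiv ℝ (fderiv ℝ f) 0 v v)‖ ≤ b * ‖v‖ ^ 3 := by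
  have hb0 : 0 ≤ b := (norm_nonneg _).trans (hb 0 (by simp))
  have hf1 : ∀ w : E, ‖w‖ ≤ 1 → ContDiffAt ℝ ∞ (fderiv ℝ f) w := fun w hw => (hf w hw).fderiv_right (m := ∞) (by simp)
  have hf2 : ∀ w : E, ‖w‖ ≤ 1 → ContDiffAt ℝ ∞ (fderiv ℝ (fderiv ℝ f)) w := fun w hw => (hf1 w hw).fderiv_right (m := ∞) (by simp)
  have hball : ∀ w : E, w ∈ Metric.closedBall (0 : E) ‖v‖ → ‖w‖ ≤ ‖v‖ := fun w hw => by simpa using hw
  have hconv := convex_closedBall (0 : E) ‖v‖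
  have h0 : (0 : E) ∈ Metric.closedBall (0 : E) ‖v‖ := by simp
  -- second derivative
  have s2 : ∀ w : E, w ∈ Metric.closedBall (0 : E) ‖v‖ → ‖fderiv ℝ (fderiv ℝ f) w - fderiv ℝ (fderiv ℝ f) 0‖ ≤ b * ‖v‖ := by
    intro w hw
    have h1 := AWRB_mv (fderiv ℝ (fderiv ℝ f)) ‖v‖ b (norm_nonneg v) (fun x hx => (hf2 x (hx.trans hv)).differentiableAt (by simp))
      (fun x hx => by rw [norm_iteratedFDeriv_fderiv, norm_iteratedFDeriv_fderiv]; exact hb x (hx.trans hv)) w (hball w hw)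
    exact h1.trans (mul_le_mul_of_nonneg_left (hball w hw) hb0)
  -- first derivative
  have s1 : ∀ w : E, w ∈ Metric.closedBall (0 : E) ‖v‖ → ‖fderiv ℝ f w - fderiv ℝ f 0 - fderiv ℝ (fderiv ℝ f) 0 w‖ ≤ b * ‖v‖ ^ 2 := by
    intro w hw
    have h1 := hconv.norm_image_sub_le_of_norm_hasFDerivWithin_le (𝕜 := ℝ) (f := fun x => fderiv ℝ f x - fderiv ℝ (fderiv ℝ f) 0 x)
      (f' := fun x => fderiv ℝ (fderiv ℝ f) x - fderiv ℝ (fderiv ℝ f) 0) (C := b * ‖v‖)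
      (fun x hx => (((hf1 x ((hball x hx).trans hv)).differentiableAt (by simp)).hasFDerivAt.sub
        (fderiv ℝ (fderiv ℝ f) 0).hasFDerivAt).hasFDerivWithinAt) (fun x hx => s2 x hx) h0 hw
    rw [sub_zero, map_zero, sub_zero] at h1
    have h2 : fderiv ℝ f w - fderiv ℝ f 0 - fderiv ℝ (fderiv ℝ f) 0 w = fderiv ℝ f w - fderiv ℝ (fderiv ℝ f) 0 w - fderiv ℝ f 0 := by abel
    rw [h2]
    refine h1.trans ?_
    calc b * ‖v‖ * ‖w‖ ≤ b * ‖v‖ * ‖v‖ := mul_le_mul_of_nonneg_left (hball w hw) (by positivity)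
      _ = b * ‖v‖ ^ 2 := by ring
  -- the function
  have hsym : ∀ x y : E, fderiv ℝ (fderiv ℝ f) 0 x y = fderiv ℝ (fderiv ℝ f) 0 y x := by
    intro x y
    have h2 : IsSymmSndFDerivAt ℝ f 0 :=
      ((hf 0 (by simp)).of_le (m := 2) (WithTop.coe_le_coe.2 (le_top : (2 : ℕ∞) ≤ ⊤))).isSymmSndFDerivAt (by simp)
    exact h2 x y
  have hq : ∀ x : E, HasFDerivAt (fun y : E => (2 : ℝ)⁻¹ • fderiv ℝ (fderiv ℝ f) 0 y y) (fderiv ℝ (fderiv ℝ f) 0 x) x := by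
    intro x
    have h1 : HasFDerivAt (fun y : E => fderiv ℝ (fderiv ℝ f) 0 y) (fderiv ℝ (fderiv ℝ f) 0) x := (fderiv ℝ (fderiv ℝ f) 0).hasFDerivAt
    have h2 := (h1.clm_apply (hasFDerivAt_id x)).const_smul (2 : ℝ)⁻¹
    refine h2.congr_fderiv ?_
    refine ContinuousLinearMap.ext fun y => ?_
    simp only [ContinuousLinearMap.smul_apply, ContinuousLinearMap.add_apply, ContinuousLinearMap.comp_apply, ContinuousLinearMap.flip_apply,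
      ContinuousLinearMap.coe_id', id_eq]
    rw [hsym y x, ← two_smul ℝ, smul_smul]
    norm_num
  have h3 := hconv.norm_image_sub_le_of_norm_hasFDerivWithin_le (𝕜 := ℝ) (f := fun x => f x - fderiv ℝ f 0 x - (2 : ℝ)⁻¹ • fderiv ℝ (fderiv ℝ f) 0 x x)
      (f' := fun x => fderiv ℝ f x - fderiv ℝ f 0 - fderiv ℝ (fderiv ℝ f) 0 x) (C := b * ‖v‖ ^ 2)
      (fun x hx => ((((hf x ((hball x hx).trans hv)).differentiableAt (by simp)).hasFDerivAt.sub (fderiv ℝ f 0).hasFDerivAt).sub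
        (hq x)).hasFDerivWithinAt) (fun x hx => s1 x hx) h0 (y := v) (by simp)
  rw [sub_zero, map_zero, map_zero, smul_zero, sub_zero, sub_zero] at h3
  have h4 : f v - (f 0 + fderiv ℝ f 0 v + (2 : ℝ)⁻¹ • fderiv ℝ (fderiv ℝ f) 0 v v) =
      f v - fderiv ℝ f 0 v - (2 : ℝ)⁻¹ • fderiv ℝ (fderiv ℝ f) 0 v v - f 0 := by abel
  rw [h4]
  exact h3.trans (le_of_eq (by ring))

/-- a smooth function which is `O(‖v‖³)` has derivatives of order `k` which are `O(‖v‖^(3-k))` -/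
theorem AWRB_van (f : E → F) (b c : ℝ) (hc0 : 0 ≤ c) (hf : ∀ v : E, ‖v‖ ≤ 1 → ContDiffAt ℝ ∞ f v)
    (hb : ∀ v : E, ‖v‖ ≤ 1 → ‖iteratedFDeriv ℝ 3 f v‖ ≤ b) (hc : ∀ v : E, ‖v‖ ≤ 1 → ‖f v‖ ≤ c * ‖v‖ ^ 3) (v : E) (hv : ‖v‖ ≤ 1) :
    ∀ k ≤ 3, ‖iteratedFDeriv ℝ k f v‖ ≤ b * ‖v‖ ^ (3 - k) := by
  have hb0 : 0 ≤ b := (norm_nonneg _).trans (hb 0 (by simp))
  have h01 : ‖(0 : E)‖ ≤ 1 := by simp
  have hf1 : ∀ w : E, ‖w‖ ≤ 1 → ContDiffAt ℝ ∞ (fderiv ℝ f) w := fun w hw => (hf w hw).fderiv_right (m := ∞) (by simp)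
  have hf2 : ∀ w : E, ‖w‖ ≤ 1 → ContDiffAt ℝ ∞ (fderiv ℝ (fderiv ℝ f)) w := fun w hw => (hf1 w hw).fderiv_right (m := ∞) (by simp)
  have e0 : f 0 = 0 := by
    have h1 := hc 0 h01
    rw [norm_zero] at h1
    norm_num at h1
    exact h1
  have e1 : fderiv ℝ f 0 = 0 := by
    have h1 : HasFDerivAt f (0 : E →L[ℝ] F) 0 := by
      rw [hasFDerivAt_iff_isLittleO_nhds_zero]
      refine Asymptotics.isLittleO_iff.2 fun ε hε => ?_
      have h2 : Metric.ball (0 : E) (min 1 (ε / (c + 1))) ∈ 𝓝 (0 : E) := Metric.ball_mem_nhds 0 (lt_min one_pos (by positivity))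
      filter_upwards [h2] with w hw
      rw [mem_ball_zero_iff, lt_min_iff] at hw
      rw [zero_add, e0, sub_zero, ContinuousLinearMap.zero_apply, sub_zero]
      refine (hc w hw.1.le).trans ?_
      have h3 : c * ‖w‖ ≤ ε := by
        have h4 : ‖w‖ * (c + 1) ≤ ε := (le_div_iff₀ (by positivity)).1 hw.2.le
        nlinarith [norm_nonneg w]
      have h5 : ‖w‖ ^ 3 ≤ ‖w‖ * ‖w‖ := by
        have := norm_nonneg w
        calc ‖w‖ ^ 3 = ‖w‖ * ‖w‖ * ‖w‖ := by ring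
          _ ≤ ‖w‖ * ‖w‖ * 1 := mul_le_mul_of_nonneg_left hw.1.le (by positivity)
          _ = ‖w‖ * ‖w‖ := mul_one _
      calc c * ‖w‖ ^ 3 ≤ c * (‖w‖ * ‖w‖) := mul_le_mul_of_nonneg_left h5 hc0
        _ = c * ‖w‖ * ‖w‖ := by ring
        _ ≤ ε * ‖w‖ := mul_le_mul_of_nonneg_right h3 (norm_nonneg w)
    exact h1.fderiv
  have hsym : ∀ x y : E, fderiv ℝ (fderiv ℝ f) 0 x y = fderiv ℝ (fderiv ℝ f) 0 y x := by
    intro x y
    have h2 : IsSymmSndFDerivAt ℝ f 0 :=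
      ((hf 0 (by simp)).of_le (m := 2) (WithTop.coe_le_coe.2 (le_top : (2 : ℕ∞) ≤ ⊤))).isSymmSndFDerivAt (by simp)
    exact h2 x y
  have hdiag : ∀ u : E, fderiv ℝ (fderiv ℝ f) 0 u u = 0 := by
    intro u
    by_contra hne
    have hpos : 0 < ‖fderiv ℝ (fderiv ℝ f) 0 u u‖ := norm_pos_iff.2 hne
    set d := ‖fderiv ℝ (fderiv ℝ f) 0 u u‖ with hd
    -- the estimate for `s u`
    have h1 : ∀ s : ℝ, 0 < s → s * ‖u‖ ≤ 1 → d ≤ 2 * (b + c) * ‖u‖ ^ 3 * s := by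
      intro s hs hsu
      have hn : ‖s • u‖ = s * ‖u‖ := by rw [norm_smul, Real.norm_eq_abs, abs_of_pos hs]
      have h2 := AWRB_taylor f b hf hb (s • u) (by rw [hn]; exact hsu)
      have h3 := hc (s • u) (by rw [hn]; exact hsu)
      rw [e0, e1, ContinuousLinearMap.zero_apply, zero_add, zero_add, hn] at h2
      rw [hn] at h3
      have h4 : fderiv ℝ (fderiv ℝ f) 0 (s • u) (s • u) = (s * s) • fderiv ℝ (fderiv ℝ f) 0 u u := by
        rw [map_smul, map_smul, ContinuousLinearMap.smul_apply, smul_smul]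
      rw [h4] at h2
      have h6 : ‖(2 : ℝ)⁻¹ • (s * s) • fderiv ℝ (fderiv ℝ f) 0 u u‖ ≤ b * (s * ‖u‖) ^ 3 + c * (s * ‖u‖) ^ 3 := by
        have h7 : (2 : ℝ)⁻¹ • (s * s) • fderiv ℝ (fderiv ℝ f) 0 u u = f (s • u) - (f (s • u) - (2 : ℝ)⁻¹ • (s * s) • fderiv ℝ (fderiv ℝ f) 0 u u) := by abel
        rw [h7]
        refine (norm_sub_le _ _).trans ?_
        linarith
      rw [norm_smul, norm_smul, ← hd, Real.norm_eq_abs, Real.norm_eq_abs, abs_of_pos (by positivity : (0 : ℝ) < 2⁻¹), abs_of_pos (by positivity : 0 < s * s)] at h6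
      have h8 : s * s * d ≤ s * s * (2 * (b + c) * ‖u‖ ^ 3 * s) := by nlinarith
      exact le_of_mul_le_mul_left h8 (by positivity)
    set L := 2 * (b + c) * ‖u‖ ^ 3 + 1 with hL
    have hL1 : 0 < L := by positivity
    have h2 := h1 (min (1 / (‖u‖ + 1)) (d / (2 * L))) (lt_min (by positivity) (by positivity)) (by
      have h3 : min (1 / (‖u‖ + 1)) (d / (2 * L)) ≤ 1 / (‖u‖ + 1) := min_le_left _ _
      calc min (1 / (‖u‖ + 1)) (d / (2 * L)) * ‖u‖ ≤ 1 / (‖u‖ + 1) * ‖u‖ := mul_le_mul_of_nonneg_right h3 (norm_nonneg u)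
        _ ≤ 1 := by
          rw [one_div, inv_mul_le_iff₀ (by positivity)]
          linarith)
    have h3 : min (1 / (‖u‖ + 1)) (d / (2 * L)) ≤ d / (2 * L) := min_le_right _ _
    have h4 : 2 * (b + c) * ‖u‖ ^ 3 * min (1 / (‖u‖ + 1)) (d / (2 * L)) ≤ L * (d / (2 * L)) := by
      refine mul_le_mul ?_ h3 (le_min (by positivity) (by positivity)) hL1.le
      rw [hL]
      linarith
    have h5 : L * (d / (2 * L)) = d / 2 := by field_simp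
    linarith
  have e2 : fderiv ℝ (fderiv ℝ f) 0 = 0 := by
    refine ContinuousLinearMap.ext fun x => ContinuousLinearMap.ext fun y => ?_
    have h1 := hdiag (x + y)
    simp only [map_add, ContinuousLinearMap.add_apply] at h1
    rw [hdiag x, hdiag y, hsym y x, zero_add, add_zero, ← two_smul ℝ] at h1
    have h2 := (smul_eq_zero.1 h1).resolve_left (by norm_num)
    rw [h2]
    rfl
  have b2 : ∀ x : E, ‖x‖ ≤ 1 → ‖iteratedFDeriv ℝ 2 f x‖ ≤ b * ‖x‖ := by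
    intro x hx
    have h1 := AWRB_mv (fderiv ℝ (fderiv ℝ f)) 1 b zero_le_one (fun x hx => (hf2 x hx).differentiableAt (by simp))
      (fun x hx => by rw [norm_iteratedFDeriv_fderiv, norm_iteratedFDeriv_fderiv]; exact hb x hx) x hx
    rw [e2, sub_zero, ← norm_iteratedFDeriv_one, norm_iteratedFDeriv_fderiv] at h1
    exact h1
  have b1 : ∀ x : E, ‖x‖ ≤ 1 → ‖iteratedFDeriv ℝ 1 f x‖ ≤ b * ‖x‖ ^ 2 := by
    intro x hx
    have h1 := AWRB_mv (fderiv ℝ f) ‖x‖ (b * ‖x‖) (norm_nonneg x) (fun y hy => (hf1 y (hy.trans hx)).differentiableAt (by simp))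
      (fun y hy => by
        rw [norm_iteratedFDeriv_fderiv]
        exact (b2 y (hy.trans hx)).trans (mul_le_mul_of_nonneg_left hy hb0)) x le_rfl
    rw [e1, sub_zero, ← norm_iteratedFDeriv_one] at h1
    exact h1.trans (le_of_eq (by ring))
  have b0 : ∀ x : E, ‖x‖ ≤ 1 → ‖iteratedFDeriv ℝ 0 f x‖ ≤ b * ‖x‖ ^ 3 := by
    intro x hx
    have h1 := AWRB_mv f ‖x‖ (b * ‖x‖ ^ 2) (norm_nonneg x) (fun y hy => (hf y (hy.trans hx)).differentiableAt (by simp))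
      (fun y hy => (b1 y (hy.trans hx)).trans (mul_le_mul_of_nonneg_left (pow_le_pow_left₀ (norm_nonneg y) hy 2) hb0)) x le_rfl
    rw [e0, sub_zero, ← norm_iteratedFDeriv_zero (𝕜 := ℝ)] at h1
    exact h1.trans (le_of_eq (by ring))
  intro k hk
  interval_cases k
  · exact b0 v hv
  · exact b1 v hv
  · have h1 := b2 v hv
    rw [show 3 - 2 = 1 from rfl, pow_one]
    exact h1
  · rw [Nat.sub_self, pow_zero, mul_one]
    exact hb v hv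

end van

/-! ## Bounded derivatives on the unit ball -/

section bd

variable {E F F' : Type} [NormedAddCommGroup E] [NormedSpace ℝ E] [NormedAddCommGroup F] [NormedSpace ℝ F] [NormedAddCommGroup F'] [NormedSpace ℝ F']

/-- smooth, with derivatives of order at most `K` bounded by `b` on the unit ball -/
structure AWRB_Bd (K : ℕ) (b : ℝ) (f : E → F) : Prop where
  sm : ContDiff ℝ ∞ f
  bd : ∀ k ≤ K, ∀ v : E, ‖v‖ ≤ 1 → ‖iteratedFDeriv ℝ k f v‖ ≤ b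

theorem AWRB_Bd.nonneg {K : ℕ} {b : ℝ} {f : E → F} (h : AWRB_Bd K b f) : 0 ≤ b :=
  (norm_nonneg _).trans (h.bd 0 (Nat.zero_le K) 0 (by simp))

theorem AWRB_Bd.mono {K : ℕ} {b c : ℝ} {f : E → F} (h : AWRB_Bd K b f) (hbc : b ≤ c) : AWRB_Bd K c f :=
  ⟨h.sm, fun k hk v hv => (h.bd k hk v hv).trans hbc⟩

theorem AWRB_Bd.add {K : ℕ} {b c : ℝ} {f g : E → F} (h : AWRB_Bd K b f) (h' : AWRB_Bd K c g) : AWRB_Bd K (b + c) (fun v => f v + g v) := by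
  refine ⟨h.sm.add h'.sm, fun k hk v hv => ?_⟩
  have e : iteratedFDeriv ℝ k (fun v => f v + g v) v = iteratedFDeriv ℝ k f v + iteratedFDeriv ℝ k g v :=
    iteratedFDeriv_add_apply (h.sm.contDiffAt.of_le (AWRB_nat k)) (h'.sm.contDiffAt.of_le (AWRB_nat k))
  rw [e]
  exact (norm_add_le _ _).trans (add_le_add (h.bd k hk v hv) (h'.bd k hk v hv))

theorem AWRB_Bd.clm {K : ℕ} {b : ℝ} {f : E → F} (h : AWRB_Bd K b f) (L : F →L[ℝ] F') : AWRB_Bd K (‖L‖ * b) (fun v => L (f v)) := by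
  refine ⟨L.contDiff.comp h.sm, fun k hk v hv => ?_⟩
  have h1 := L.norm_iteratedFDeriv_comp_left (x := v) (h.sm.contDiffAt.of_le (AWRB_nat k)) (le_refl (k : WithTop ℕ∞))
  exact h1.trans (mul_le_mul_of_nonneg_left (h.bd k hk v hv) (norm_nonneg _))

theorem AWRB_Bd.clm_le {K : ℕ} {b : ℝ} {f : E → F} (h : AWRB_Bd K b f) (L : F →L[ℝ] F') {c : ℝ} (hL : ‖L‖ ≤ c) :
    AWRB_Bd K (c * b) (fun v => L (f v)) :=
  (h.clm L).mono (mul_le_mul_of_nonneg_right hL h.nonneg)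

theorem AWRB_Bd.smul {K : ℕ} {b : ℝ} {f : E → F} (h : AWRB_Bd K b f) (r : ℝ) : AWRB_Bd K (|r| * b) (fun v => r • f v) := by
  refine h.clm_le (r • ContinuousLinearMap.id ℝ F) ?_
  rw [norm_smul, Real.norm_eq_abs]
  exact mul_le_of_le_one_right (abs_nonneg r) ContinuousLinearMap.norm_id_le

theorem AWRB_Bd.sub {K : ℕ} {b c : ℝ} {f g : E → F} (h : AWRB_Bd K b f) (h' : AWRB_Bd K c g) : AWRB_Bd K (b + c) (fun v => f v - g v) := by
  have h1 := h.add (h'.smul (-1))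
  rw [abs_neg, abs_one, one_mul] at h1
  have h2 : (fun v => f v - g v) = fun v => f v + (-1 : ℝ) • g v := by
    funext v
    rw [neg_one_smul, sub_eq_add_neg]
  rw [h2]
  exact h1

theorem AWRB_Bd.sum {ι : Type} (s : Finset ι) {K : ℕ} {b : ι → ℝ} {f : ι → E → F} (h : ∀ i ∈ s, AWRB_Bd K (b i) (f i)) :
    AWRB_Bd K (∑ i ∈ s, b i) (fun v => ∑ i ∈ s, f i v) := by
  refine ⟨ContDiff.sum fun i hi => (h i hi).sm, fun k hk v hv => ?_⟩
  rw [iteratedFDeriv_fun_sum_apply fun j hj => ((h j hj).sm.of_le (AWRB_nat k)).contDiffAt]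
  exact (norm_sum_le _ _).trans (Finset.sum_le_sum fun j hj => (h j hj).bd k hk v hv)

theorem AWRB_Bd.const {K : ℕ} (c : F) : AWRB_Bd K ‖c‖ (fun _ : E => c) := by
  refine ⟨contDiff_const, fun k _ v _ => ?_⟩
  cases k with
  | zero => rw [norm_iteratedFDeriv_zero]
  | succ n =>
    rw [iteratedFDeriv_succ_const]
    simp

theorem AWRB_Bd.lin {K : ℕ} (L : E →L[ℝ] F) : AWRB_Bd K ‖L‖ (fun v : E => L v) := by
  refine ⟨L.contDiff, fun k _ v hv => ?_⟩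
  cases k with
  | zero =>
    rw [norm_iteratedFDeriv_zero]
    exact (L.le_opNorm v).trans (mul_le_of_le_one_right (norm_nonneg _) hv)
  | succ n =>
    rw [← norm_iteratedFDeriv_fderiv]
    have h1 : fderiv ℝ (fun v : E => L v) = fun _ => L := by
      funext x
      exact L.fderiv
    rw [h1]
    cases n with
    | zero => rw [norm_iteratedFDeriv_zero]
    | succ n =>
      rw [iteratedFDeriv_succ_const]
      simp

theorem AWRB_binom (K n : ℕ) (hn : n ≤ K) (b c : ℝ) (hb : 0 ≤ b) (hc : 0 ≤ c) (x y : ℕ → ℝ) (hx : ∀ i ≤ n, x i ≤ b) (hy : ∀ i ≤ n, y i ≤ c)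
    (hx0 : ∀ i, 0 ≤ x i) (hy0 : ∀ i, 0 ≤ y i) :
    ∑ i ∈ Finset.range (n + 1), (n.choose i : ℝ) * x i * y (n - i) ≤ 2 ^ K * b * c := by
  have h1 : ∑ i ∈ Finset.range (n + 1), (n.choose i : ℝ) * x i * y (n - i) ≤ ∑ i ∈ Finset.range (n + 1), (n.choose i : ℝ) * (b * c) := by
    refine Finset.sum_le_sum fun i hi => ?_
    rw [mul_assoc]
    refine mul_le_mul_of_nonneg_left ?_ (Nat.cast_nonneg _)
    exact mul_le_mul (hx i (by have := Finset.mem_range.1 hi; omega)) (hy (n - i) (Nat.sub_le n i)) (hy0 _) hb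
  refine h1.trans ?_
  rw [← Finset.sum_mul]
  have h2 : ∑ i ∈ Finset.range (n + 1), (n.choose i : ℝ) = 2 ^ n := by
    have := Nat.sum_range_choose n
    exact_mod_cast this
  rw [h2]
  have h3 : (2 : ℝ) ^ n ≤ 2 ^ K := pow_le_pow_right₀ (by norm_num) hn
  calc (2 : ℝ) ^ n * (b * c) ≤ 2 ^ K * (b * c) := mul_le_mul_of_nonneg_right h3 (mul_nonneg hb hc)
    _ = 2 ^ K * b * c := by ring

theorem AWRB_Bd.mul {K : ℕ} {b c : ℝ} {f g : E → ℂ} (h : AWRB_Bd K b f) (h' : AWRB_Bd K c g) : AWRB_Bd K (2 ^ K * b * c) (fun v => f v * g v) := by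
  refine ⟨h.sm.mul h'.sm, fun k hk v hv => ?_⟩
  refine (norm_iteratedFDeriv_mul_le h.sm h'.sm v (AWRB_nat k)).trans ?_
  exact AWRB_binom K k hk b c h.nonneg h'.nonneg (fun i => ‖iteratedFDeriv ℝ i f v‖) (fun i => ‖iteratedFDeriv ℝ i g v‖)
    (fun i hi => h.bd i (hi.trans hk) v hv) (fun i hi => h'.bd i (hi.trans hk) v hv) (fun _ => norm_nonneg _) (fun _ => norm_nonneg _)

theorem AWRB_Bd.app {K : ℕ} {b c : ℝ} {f : E → F →L[ℝ] F'} {g : E → F} (h : AWRB_Bd K b f) (h' : AWRB_Bd K c g) :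
    AWRB_Bd K (2 ^ K * b * c) (fun v => f v (g v)) := by
  refine ⟨h.sm.clm_apply h'.sm, fun k hk v hv => ?_⟩
  refine (norm_iteratedFDeriv_clm_apply h.sm h'.sm v (AWRB_nat k)).trans ?_
  exact AWRB_binom K k hk b c h.nonneg h'.nonneg (fun i => ‖iteratedFDeriv ℝ i f v‖) (fun i => ‖iteratedFDeriv ℝ i g v‖)
    (fun i hi => h.bd i (hi.trans hk) v hv) (fun i hi => h'.bd i (hi.trans hk) v hv) (fun _ => norm_nonneg _) (fun _ => norm_nonneg _)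

theorem AWRB_Bd.cmul {K : ℕ} {b : ℝ} {f : E → ℂ} (h : AWRB_Bd K b f) (c : ℂ) : AWRB_Bd K (‖c‖ * b) (fun v => c * f v) := by
  refine h.clm_le (ContinuousLinearMap.mul ℝ ℂ c) ?_
  rw [ContinuousLinearMap.opNorm_mul_apply]

theorem AWRB_Bd.mulc {K : ℕ} {b : ℝ} {f : E → ℂ} (h : AWRB_Bd K b f) (c : ℂ) : AWRB_Bd K (‖c‖ * b) (fun v => f v * c) := by
  have h1 := h.cmul c
  simp only [mul_comm c] at h1
  exact h1

end bd

section gen

variable {E F : Type} [NormedAddCommGroup E] [NormedSpace ℝ E] [NormedAddCommGroup F] [NormedSpace ℝ F]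

theorem AWRB_shift {h : E → F} (hs : ContDiff ℝ ∞ h) (x : E) (K : ℕ) (C : ℝ)
    (hb : ∀ v : E, ‖v‖ ≤ 1 → ∀ k ≤ K, ‖iteratedFDeriv ℝ k h (x + v)‖ ≤ C) : AWRB_Bd K C (fun v => h (x + v)) := by
  refine ⟨hs.comp (contDiff_const.add contDiff_id), fun k hk v hv => ?_⟩
  rw [iteratedFDeriv_comp_add_left]
  exact hb v hv k hk

/-! ## The remainder -/

/-- the Taylor remainders of order 0, 1, 2 at `x` -/
def AWRB_A0 (h : E → F) (x v : E) : F := h (x + v) - h x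

def AWRB_A1 (h : E → F) (x v : E) : F := h (x + v) - h x - fderiv ℝ h x v

def AWRB_A2 (h : E → F) (x v : E) : F :=
  h (x + v) - h x - fderiv ℝ h x v - (1 / 2 : ℝ) • fderiv ℝ (fderiv ℝ h) x v v

theorem AWRB_two (h : E → F) (x : E) : ‖fderiv ℝ (fderiv ℝ h) x‖ = ‖iteratedFDeriv ℝ 2 h x‖ := by
  rw [← norm_iteratedFDeriv_zero (𝕜 := ℝ) (f := fderiv ℝ (fderiv ℝ h)), norm_iteratedFDeriv_fderiv, norm_iteratedFDeriv_fderiv]

theorem AWRB_one (h : E → F) (x : E) : ‖fderiv ℝ h x‖ = ‖iteratedFDeriv ℝ 1 h x‖ := by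
  rw [← norm_iteratedFDeriv_zero (𝕜 := ℝ) (f := fderiv ℝ h), norm_iteratedFDeriv_fderiv]

section rem

variable {K : ℕ} {h : E → F} {x : E} {C : ℝ}

theorem AWRB_B0 (hs : ContDiff ℝ ∞ h) (hC : ∀ v : E, ‖v‖ ≤ 1 → ∀ k ≤ K + 2, ‖iteratedFDeriv ℝ k h (x + v)‖ ≤ C) :
    AWRB_Bd K (C + C) (AWRB_A0 h x) := by
  have h0 : ‖h x‖ ≤ C := by
    have := hC 0 (by simp) 0 (Nat.zero_le _)
    rwa [norm_iteratedFDeriv_zero, add_zero] at this
  exact (AWRB_shift hs x K C fun v hv k hk => hC v hv k (by omega)).sub ((AWRB_Bd.const (h x)).mono h0)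

theorem AWRB_B1 (hs : ContDiff ℝ ∞ h) (hC : ∀ v : E, ‖v‖ ≤ 1 → ∀ k ≤ K + 2, ‖iteratedFDeriv ℝ k h (x + v)‖ ≤ C) :
    AWRB_Bd K (C + C + C) (AWRB_A1 h x) := by
  have h0 : ‖fderiv ℝ h x‖ ≤ C := by
    have := hC 0 (by simp) 1 (by omega)
    rwa [← AWRB_one, add_zero] at this
  exact (AWRB_B0 hs hC).sub ((AWRB_Bd.lin (fderiv ℝ h x)).mono h0)

theorem AWRB_B2 (hs : ContDiff ℝ ∞ h) (hC : ∀ v : E, ‖v‖ ≤ 1 → ∀ k ≤ K + 2, ‖iteratedFDeriv ℝ k h (x + v)‖ ≤ C) :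
    AWRB_Bd K (C + C + C + 2 ^ K * C) (AWRB_A2 h x) := by
  have h0 : ‖fderiv ℝ (fderiv ℝ h) x‖ ≤ C := by
    have := hC 0 (by simp) 2 (by omega)
    rwa [← AWRB_two, add_zero] at this
  have h1 : AWRB_Bd K 1 (fun v : E => v) := (AWRB_Bd.lin (ContinuousLinearMap.id ℝ (E))).mono ContinuousLinearMap.norm_id_le
  have h2 := ((((AWRB_Bd.lin (K := K) (fderiv ℝ (fderiv ℝ h) x)).mono h0).app h1)).smul (1 / 2 : ℝ)
  have hC0 : 0 ≤ C := (norm_nonneg (iteratedFDeriv ℝ 0 h (x + 0))).trans (hC 0 (by simp) 0 (Nat.zero_le _))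
  refine (AWRB_B1 hs hC).sub (h2.mono ?_)
  rw [abs_of_pos (by norm_num : (0 : ℝ) < 1 / 2), mul_one]
  have : 0 ≤ 2 ^ K * C := by positivity
  linarith

theorem AWRB_T2 (hs : ContDiff ℝ ∞ h) (hC : ∀ v : E, ‖v‖ ≤ 1 → ∀ k ≤ 3, ‖iteratedFDeriv ℝ k h (x + v)‖ ≤ C) (v : E) (hv : ‖v‖ ≤ 1) :
    ‖AWRB_A2 h x v‖ ≤ C * ‖v‖ ^ 3 := by
  have h1 := AWRB_taylor (fun v => h (x + v)) C (fun v _ => (hs.comp (contDiff_const.add contDiff_id)).contDiffAt)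
    (fun v hv => by rw [iteratedFDeriv_comp_add_left]; exact hC v hv 3 le_rfl) v hv
  have h2 : fderiv ℝ (fun v => h (x + v)) = fun v => fderiv ℝ h (x + v) := by
    funext w
    exact fderiv_comp_add_left x
  have h3 : fderiv ℝ (fun v => fderiv ℝ h (x + v)) 0 = fderiv ℝ (fderiv ℝ h) x := by
    have h4 := fderiv_comp_add_left (𝕜 := ℝ) (f := fderiv ℝ h) (x := (0 : E)) x
    rw [add_zero] at h4
    exact h4
  rw [h2, h3] at h1
  simp only [add_zero] at h1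
  have h5 : AWRB_A2 h x v = h (x + v) - (h x + fderiv ℝ h x v + (2 : ℝ)⁻¹ • fderiv ℝ (fderiv ℝ h) x v v) := by
    unfold AWRB_A2
    rw [one_div]
    abel
  rw [h5]
  exact h1

theorem AWRB_T1 (hs : ContDiff ℝ ∞ h) (hC : ∀ v : E, ‖v‖ ≤ 1 → ∀ k ≤ 3, ‖iteratedFDeriv ℝ k h (x + v)‖ ≤ C) (v : E) (hv : ‖v‖ ≤ 1) :
    ‖AWRB_A1 h x v‖ ≤ 2 * C * ‖v‖ ^ 2 := by
  have h0 : ‖fderiv ℝ (fderiv ℝ h) x‖ ≤ C := by
    have := hC 0 (by simp) 2 (by omega)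
    rwa [← AWRB_two, add_zero] at this
  have hC0 : 0 ≤ C := (norm_nonneg (iteratedFDeriv ℝ 0 h (x + 0))).trans (hC 0 (by simp) 0 (Nat.zero_le _))
  have h1 : AWRB_A1 h x v = AWRB_A2 h x v + (1 / 2 : ℝ) • fderiv ℝ (fderiv ℝ h) x v v := by
    unfold AWRB_A1 AWRB_A2
    abel
  have h2 : ‖(1 / 2 : ℝ) • fderiv ℝ (fderiv ℝ h) x v v‖ ≤ C * ‖v‖ ^ 2 := by
    rw [norm_smul, Real.norm_eq_abs, abs_of_pos (by norm_num : (0 : ℝ) < 1 / 2)]
    have h3 : ‖fderiv ℝ (fderiv ℝ h) x v v‖ ≤ C * ‖v‖ ^ 2 := by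
      refine (ContinuousLinearMap.le_opNorm _ v).trans ?_
      rw [pow_two, ← mul_assoc]
      refine mul_le_mul_of_nonneg_right ?_ (norm_nonneg v)
      exact (ContinuousLinearMap.le_opNorm _ v).trans (mul_le_mul_of_nonneg_right h0 (norm_nonneg v))
    have h4 := norm_nonneg (fderiv ℝ (fderiv ℝ h) x v v)
    linarith
  rw [h1]
  refine (norm_add_le _ _).trans ?_
  have h5 := AWRB_T2 hs hC v hv
  have h6 : C * ‖v‖ ^ 3 ≤ C * ‖v‖ ^ 2 := mul_le_mul_of_nonneg_left (pow_le_pow_of_le_one (norm_nonneg v) hv (by norm_num)) hC0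
  linarith

theorem AWRB_T0 (hs : ContDiff ℝ ∞ h) (hC : ∀ v : E, ‖v‖ ≤ 1 → ∀ k ≤ 3, ‖iteratedFDeriv ℝ k h (x + v)‖ ≤ C) (v : E) (hv : ‖v‖ ≤ 1) :
    ‖AWRB_A0 h x v‖ ≤ 3 * C * ‖v‖ := by
  have h0 : ‖fderiv ℝ h x‖ ≤ C := by
    have := hC 0 (by simp) 1 (by omega)
    rwa [← AWRB_one, add_zero] at this
  have hC0 : 0 ≤ C := (norm_nonneg (iteratedFDeriv ℝ 0 h (x + 0))).trans (hC 0 (by simp) 0 (Nat.zero_le _))
  have h1 : AWRB_A0 h x v = AWRB_A1 h x v + fderiv ℝ h x v := by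
    unfold AWRB_A0 AWRB_A1
    abel
  rw [h1]
  refine (norm_add_le _ _).trans ?_
  have h2 : ‖fderiv ℝ h x v‖ ≤ C * ‖v‖ := (ContinuousLinearMap.le_opNorm _ v).trans (mul_le_mul_of_nonneg_right h0 (norm_nonneg v))
  have h5 := AWRB_T1 hs hC v hv
  have h6 : 2 * C * ‖v‖ ^ 2 ≤ 2 * C * ‖v‖ := by
    refine mul_le_mul_of_nonneg_left ?_ (by positivity)
    have := pow_le_pow_of_le_one (norm_nonneg v) hv (by norm_num : 1 ≤ 2)
    rwa [pow_one] at this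
  linarith

end rem

end gen

/-! ## The entries -/

section ent

variable {d : ℕ}

/-- the entry `(i, j)` of a real operator as a complex number -/
def AWRB_ent (i j : Fin d) : (V d →L[ℝ] V d) →L[ℝ] ℂ :=
  Complex.ofRealCLM.comp ((EuclideanSpace.proj i : V d →L[ℝ] ℝ).comp (ContinuousLinearMap.apply ℝ (V d) (EuclideanSpace.single j (1 : ℝ) : V d)))

theorem AWRB_ent_apply (i j : Fin d) (A : V d →L[ℝ] V d) : AWRB_ent i j A = (((A (EuclideanSpace.single j 1)) i : ℝ) : ℂ) := rfl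

theorem AWRB_ent_norm' (i j : Fin d) (A : V d →L[ℝ] V d) : ‖(((A (EuclideanSpace.single j 1)) i : ℝ) : ℂ)‖ ≤ ‖A‖ := by
  rw [Complex.norm_real]
  refine (PiLp.norm_apply_le _ i).trans ((A.le_opNorm _).trans ?_)
  rw [PiLp.norm_single, norm_one, mul_one]

theorem AWRB_ent_norm (i j : Fin d) : ‖AWRB_ent i j‖ ≤ 1 := by
  refine ContinuousLinearMap.opNorm_le_bound _ zero_le_one fun A => ?_
  rw [AWRB_ent_apply, one_mul]
  exact AWRB_ent_norm' i j A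

theorem AWRB_Bd.ent {K : ℕ} {b : ℝ} {A : V d → V d →L[ℝ] V d} (h : AWRB_Bd K b A) (i j : Fin d) :
    AWRB_Bd K b (fun v => (((A v (EuclideanSpace.single j 1)) i : ℝ) : ℂ)) := by
  have h1 := h.clm_le (AWRB_ent i j) (AWRB_ent_norm i j)
  rw [one_mul] at h1
  exact h1

theorem AWRB_Bd.whe {K : ℕ} {α β γ : ℝ} {A : V d → V d →L[ℝ] V d} {a b : V d → Fin d → ℂ} (hA : AWRB_Bd K α A)
    (ha : ∀ i, AWRB_Bd K β (fun v => a v i)) (hb : ∀ i, AWRB_Bd K γ (fun v => b v i)) :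
    AWRB_Bd K (d * (d * (2 ^ K * α * (2 ^ K * β * γ)))) (fun v => WhE (A v) (a v) (b v)) := by
  have h1 : ∀ i, AWRB_Bd K (∑ _j : Fin d, (2 ^ K * α * (2 ^ K * β * γ)))
      (fun v => ∑ j, (((A v (EuclideanSpace.single j 1)) i : ℝ) : ℂ) * (a v i * b v j)) :=
    fun i => AWRB_Bd.sum _ fun j _ => (hA.ent i j).mul ((ha i).mul (hb j))
  have h2 := AWRB_Bd.sum Finset.univ fun i (_ : i ∈ Finset.univ) => h1 i
  simp only [Finset.sum_const, Finset.card_univ, Fintype.card_fin, nsmul_eq_mul] at h2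
  exact h2

theorem AWRB_whe_norm {A : V d →L[ℝ] V d} {a b : Fin d → ℂ} {β γ : ℝ} (ha : ∀ i, ‖a i‖ ≤ β) (hb : ∀ i, ‖b i‖ ≤ γ) (hβ : 0 ≤ β) :
    ‖WhE A a b‖ ≤ d * (d * (‖A‖ * (β * γ))) := by
  unfold WhE
  have h1 : ∀ i : Fin d, ‖∑ j, (((A (EuclideanSpace.single j 1)) i : ℝ) : ℂ) * (a i * b j)‖ ≤ d * (‖A‖ * (β * γ)) := by
    intro i
    refine (norm_sum_le _ _).trans ?_
    have h2 : ∀ j ∈ (Finset.univ : Finset (Fin d)), ‖(((A (EuclideanSpace.single j 1)) i : ℝ) : ℂ) * (a i * b j)‖ ≤ ‖A‖ * (β * γ) := by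
      intro j _
      rw [norm_mul, norm_mul]
      exact mul_le_mul (AWRB_ent_norm' i j A) (mul_le_mul (ha i) (hb j) (norm_nonneg _) hβ) (by positivity) (norm_nonneg _)
    refine (Finset.sum_le_sum h2).trans ?_
    simp
  refine (norm_sum_le _ _).trans ((Finset.sum_le_sum fun i _ => h1 i).trans ?_)
  simp

/-- the coordinate `i` as a complex number -/
def AWRB_crd (i : Fin d) : V d →L[ℝ] ℂ := Complex.ofRealCLM.comp (EuclideanSpace.proj i : V d →L[ℝ] ℝ)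

theorem AWRB_crd_norm' (i : Fin d) (v : V d) : ‖Wcx v i‖ ≤ ‖v‖ := by
  unfold Wcx
  rw [Complex.norm_real]
  exact PiLp.norm_apply_le _ i

theorem AWRB_crd_norm (i : Fin d) : ‖(AWRB_crd i : V d →L[ℝ] ℂ)‖ ≤ 1 := by
  refine ContinuousLinearMap.opNorm_le_bound _ zero_le_one fun v => ?_
  rw [one_mul]
  exact AWRB_crd_norm' i v

theorem AWRB_Bd_crd {K : ℕ} (i : Fin d) : AWRB_Bd K 1 (fun v : V d => Wcx v i) :=
  (AWRB_Bd.lin (AWRB_crd i)).mono (AWRB_crd_norm i)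

theorem AWRB_Bd_cst {K : ℕ} (ξ : V d) {ρ : ℝ} (hρ : ‖ξ‖ ≤ ρ) (i : Fin d) : AWRB_Bd K ρ (fun _ : V d => Wcx ξ i) :=
  (AWRB_Bd.const (Wcx ξ i)).mono ((AWRB_crd_norm' i ξ).trans hρ)

theorem AWRB_Bd_mv {K : ℕ} {M : MC d} {m : ℝ} (hM : ∀ i j, ‖M i j‖ ≤ m) (i : Fin d) :
    AWRB_Bd K (d * m) (fun v : V d => M.mulVec (Wcx v) i) := by
  have h1 : AWRB_Bd K (∑ _j : Fin d, m) (fun v : V d => ∑ j, M i j * Wcx v j) :=
    AWRB_Bd.sum _ fun j _ => ((AWRB_Bd_crd j).cmul (M i j)).mono (by rw [mul_one]; exact hM i j)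
  simp only [Finset.sum_const, Finset.card_univ, Fintype.card_fin, nsmul_eq_mul] at h1
  exact h1

theorem AWRB_mv_norm {M : MC d} {m : ℝ} (hM : ∀ i j, ‖M i j‖ ≤ m) (i : Fin d) (v : V d) : ‖M.mulVec (Wcx v) i‖ ≤ d * (m * ‖v‖) := by
  have h0 : M.mulVec (Wcx v) i = ∑ j, M i j * Wcx v j := rfl
  rw [h0]
  refine (norm_sum_le _ _).trans ?_
  have h2 : ∀ j ∈ (Finset.univ : Finset (Fin d)), ‖M i j * Wcx v j‖ ≤ m * ‖v‖ := by
    intro j _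
    rw [norm_mul]
    exact mul_le_mul (hM i j) (AWRB_crd_norm' j v) (norm_nonneg _) ((norm_nonneg _).trans (hM i j))
  refine (Finset.sum_le_sum h2).trans ?_
  simp

/-- the constant of the remainder -/
def AWRB_c3 (d K : ℕ) (C ρ : ℝ) : ℝ :=
  d * (d * (2 ^ K * (C + C + C + 2 ^ K * C) * (2 ^ K * ρ * ρ))) + d * (d * (2 ^ K * (C + C + C) * (2 ^ K * ρ * d))) +
    d * (d * (2 ^ K * (C + C) * (2 ^ K * d * d)))

/-- the constant of the divergence -/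
def AWRB_c1 (d K : ℕ) (C ρ : ℝ) : ℝ := d * (d * (d * (2 ^ K * C * (2 ^ K * 1 * (ρ + d))))) + d * (d * C)

theorem AWRB_half : ‖(1 / 2 : ℂ)‖ ≤ 1 := by
  rw [norm_div, norm_one]
  norm_num

theorem AWRB_r3 {K : ℕ} {h : V d → V d →L[ℝ] V d} (hs : ContDiff ℝ ∞ h) {x ξ : V d} {M : MC d} {C ρ m : ℝ}
    (hC : ∀ v : V d, ‖v‖ ≤ 1 → ∀ k ≤ K + 2, ‖iteratedFDeriv ℝ k h (x + v)‖ ≤ C) (hC0 : 0 ≤ C) (hρ : ‖ξ‖ ≤ ρ) (hm : 1 ≤ m) (hM : ∀ i j, ‖M i j‖ ≤ m) :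
    AWRB_Bd K (AWRB_c3 d K C ρ * m ^ 2) (fun v => 1 / 2 * WhE (AWRB_A2 h x v) (Wcx ξ) (Wcx ξ) +
      WhE (AWRB_A1 h x v) (Wcx ξ) (M.mulVec (Wcx v)) + 1 / 2 * WhE (AWRB_A0 h x v) (M.mulVec (Wcx v)) (M.mulVec (Wcx v))) := by
  have hρ0 : 0 ≤ ρ := (norm_nonneg _).trans hρ
  have hm0 : 0 ≤ m := zero_le_one.trans hm
  have hm2 : 1 ≤ m ^ 2 := one_le_pow₀ hm
  have hm1 : m ≤ m ^ 2 := by nlinarith
  have b2 := ((AWRB_B2 hs hC).whe (a := fun _ => Wcx ξ) (b := fun _ => Wcx ξ) (AWRB_Bd_cst ξ hρ) (AWRB_Bd_cst ξ hρ)).cmul (1 / 2)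
  have b1 := (AWRB_B1 hs hC).whe (a := fun _ => Wcx ξ) (b := fun v => M.mulVec (Wcx v)) (AWRB_Bd_cst ξ hρ) (AWRB_Bd_mv hM)
  have b0 := ((AWRB_B0 hs hC).whe (a := fun v => M.mulVec (Wcx v)) (b := fun v => M.mulVec (Wcx v)) (AWRB_Bd_mv hM) (AWRB_Bd_mv hM)).cmul (1 / 2)
  refine ((b2.add b1).add b0).mono ?_
  have e2 : ‖(1 / 2 : ℂ)‖ * (d * (d * (2 ^ K * (C + C + C + 2 ^ K * C) * (2 ^ K * ρ * ρ)))) ≤
      d * (d * (2 ^ K * (C + C + C + 2 ^ K * C) * (2 ^ K * ρ * ρ))) * m ^ 2 := by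
    refine (mul_le_of_le_one_left (by positivity) AWRB_half).trans (le_mul_of_one_le_right (by positivity) hm2)
  have e1 : d * (d * (2 ^ K * (C + C + C) * (2 ^ K * ρ * (d * m)))) ≤ d * (d * (2 ^ K * (C + C + C) * (2 ^ K * ρ * d))) * m ^ 2 := by
    have : d * (d * (2 ^ K * (C + C + C) * (2 ^ K * ρ * (d * m)))) = d * (d * (2 ^ K * (C + C + C) * (2 ^ K * ρ * d))) * m := by ring
    rw [this]
    exact mul_le_mul_of_nonneg_left hm1 (by positivity)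
  have e0 : ‖(1 / 2 : ℂ)‖ * (d * (d * (2 ^ K * (C + C) * (2 ^ K * (d * m) * (d * m))))) ≤
      d * (d * (2 ^ K * (C + C) * (2 ^ K * d * d))) * m ^ 2 := by
    refine (mul_le_of_le_one_left (by positivity) AWRB_half).trans (le_of_eq (by ring))
  unfold AWRB_c3
  rw [add_mul, add_mul]
  exact add_le_add (add_le_add e2 e1) e0

theorem AWRB_r3_O {h : V d → V d →L[ℝ] V d} (hs : ContDiff ℝ ∞ h) {x ξ : V d} {M : MC d} {C ρ m : ℝ}
    (hC : ∀ v : V d, ‖v‖ ≤ 1 → ∀ k ≤ 3, ‖iteratedFDeriv ℝ k h (x + v)‖ ≤ C) (hC0 : 0 ≤ C) (hρ : ‖ξ‖ ≤ ρ) (hm : 1 ≤ m) (hM : ∀ i j, ‖M i j‖ ≤ m)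
    (v : V d) (hv : ‖v‖ ≤ 1) :
    ‖1 / 2 * WhE (AWRB_A2 h x v) (Wcx ξ) (Wcx ξ) +
      WhE (AWRB_A1 h x v) (Wcx ξ) (M.mulVec (Wcx v)) + 1 / 2 * WhE (AWRB_A0 h x v) (M.mulVec (Wcx v)) (M.mulVec (Wcx v))‖ ≤
      (d * (d * (C * (ρ * ρ))) + d * (d * (2 * C * (ρ * (d * m)))) + d * (d * (3 * C * (d * m * (d * m))))) * ‖v‖ ^ 3 := by
  have hρ0 : 0 ≤ ρ := (norm_nonneg _).trans hρ
  have hm0 : 0 ≤ m := zero_le_one.trans hm
  have hξ : ∀ i, ‖Wcx ξ i‖ ≤ ρ := fun i => (AWRB_crd_norm' i ξ).trans hρ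
  have hMv := fun i => AWRB_mv_norm hM i v
  have t2 := AWRB_T2 hs hC v hv
  have t1 := AWRB_T1 hs hC v hv
  have t0 := AWRB_T0 hs hC v hv
  have n2 := AWRB_whe_norm (A := AWRB_A2 h x v) hξ hξ hρ0
  have n1 := AWRB_whe_norm (A := AWRB_A1 h x v) hξ hMv hρ0
  have n0 := AWRB_whe_norm (A := AWRB_A0 h x v) hMv hMv (by positivity)
  have e2 : ‖1 / 2 * WhE (AWRB_A2 h x v) (Wcx ξ) (Wcx ξ)‖ ≤ d * (d * (C * (ρ * ρ))) * ‖v‖ ^ 3 := by
    rw [norm_mul]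
    refine (mul_le_of_le_one_left (norm_nonneg _) AWRB_half).trans (n2.trans ?_)
    calc d * (d * (‖AWRB_A2 h x v‖ * (ρ * ρ))) ≤ d * (d * (C * ‖v‖ ^ 3 * (ρ * ρ))) := by gcongr
      _ = d * (d * (C * (ρ * ρ))) * ‖v‖ ^ 3 := by ring
  have e1 : ‖WhE (AWRB_A1 h x v) (Wcx ξ) (M.mulVec (Wcx v))‖ ≤ d * (d * (2 * C * (ρ * (d * m)))) * ‖v‖ ^ 3 := by
    refine n1.trans ?_
    calc d * (d * (‖AWRB_A1 h x v‖ * (ρ * (d * (m * ‖v‖))))) ≤ d * (d * (2 * C * ‖v‖ ^ 2 * (ρ * (d * (m * ‖v‖))))) := by gcongr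
      _ = d * (d * (2 * C * (ρ * (d * m)))) * ‖v‖ ^ 3 := by ring
  have e0 : ‖1 / 2 * WhE (AWRB_A0 h x v) (M.mulVec (Wcx v)) (M.mulVec (Wcx v))‖ ≤ d * (d * (3 * C * (d * m * (d * m)))) * ‖v‖ ^ 3 := by
    rw [norm_mul]
    refine (mul_le_of_le_one_left (norm_nonneg _) AWRB_half).trans (n0.trans ?_)
    calc d * (d * (‖AWRB_A0 h x v‖ * (d * (m * ‖v‖) * (d * (m * ‖v‖))))) ≤ d * (d * (3 * C * ‖v‖ * (d * (m * ‖v‖) * (d * (m * ‖v‖))))) := by gcongr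
      _ = d * (d * (3 * C * (d * m * (d * m)))) * ‖v‖ ^ 3 := by ring
  rw [add_mul, add_mul]
  exact (norm_add_le _ _).trans (add_le_add ((norm_add_le _ _).trans (add_le_add e2 e1)) e0)

theorem AWRB_dv {K : ℕ} {h : V d → V d →L[ℝ] V d} (hs : ContDiff ℝ ∞ h) {x ξ : V d} {M : MC d} {C ρ m : ℝ}
    (hC : ∀ v : V d, ‖v‖ ≤ 1 → ∀ k ≤ K + 2, ‖iteratedFDeriv ℝ k h (x + v)‖ ≤ C) (hC0 : 0 ≤ C) (hρ : ‖ξ‖ ≤ ρ) (hm : 1 ≤ m) (hM : ∀ i j, ‖M i j‖ ≤ m) :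
    AWRB_Bd K (AWRB_c1 d K C ρ * m) (fun v => (∑ i, WhE (fderiv ℝ h (x + v) (EuclideanSpace.single i 1)) (Wcx (EuclideanSpace.single i 1)) (Wcx ξ + M.mulVec (Wcx v))) +
      ∑ i, ∑ j, (((h (x + v) (EuclideanSpace.single j 1)) i : ℝ) : ℂ) * M i j) := by
  have hρ0 : 0 ≤ ρ := (norm_nonneg _).trans hρ
  have hm0 : 0 ≤ m := zero_le_one.trans hm
  have hh := AWRB_shift hs x K C fun v hv k hk => hC v hv k (by omega)
  have hd : AWRB_Bd K C (fun v => fderiv ℝ h (x + v)) :=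
    AWRB_shift (hs.fderiv_right (m := ∞) (by simp)) x K C fun v hv k hk => by
      rw [norm_iteratedFDeriv_fderiv]
      exact hC v hv (k + 1) (by omega)
  have hdi : ∀ i : Fin d, AWRB_Bd K C (fun v => fderiv ℝ h (x + v) (EuclideanSpace.single i 1)) := by
    intro i
    have h1 := hd.clm_le (ContinuousLinearMap.apply ℝ (V d →L[ℝ] V d) (EuclideanSpace.single i (1 : ℝ) : V d)) (c := 1) (by
      refine ContinuousLinearMap.opNorm_le_bound _ zero_le_one fun A => ?_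
      rw [one_mul]
      refine (A.le_opNorm _).trans ?_
      rw [PiLp.norm_single, norm_one, mul_one])
    rw [one_mul] at h1
    exact h1
  have hg : ∀ j, AWRB_Bd K (ρ + d * m) (fun v => (Wcx ξ + M.mulVec (Wcx v)) j) := fun j => (AWRB_Bd_cst ξ hρ j).add (AWRB_Bd_mv hM j)
  have he : ∀ i j : Fin d, AWRB_Bd K 1 (fun _ : V d => Wcx (EuclideanSpace.single i (1 : ℝ) : V d) j) := fun i j =>
    AWRB_Bd_cst _ (by rw [PiLp.norm_single, norm_one]) j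
  have s1 := AWRB_Bd.sum Finset.univ fun i (_ : i ∈ (Finset.univ : Finset (Fin d))) => (hdi i).whe (a := fun _ => Wcx (EuclideanSpace.single i (1 : ℝ) : V d))
    (b := fun v => Wcx ξ + M.mulVec (Wcx v)) (he i) hg
  have s2 : ∀ i : Fin d, AWRB_Bd K (∑ _j : Fin d, m * C) (fun v => ∑ j, (((h (x + v) (EuclideanSpace.single j 1)) i : ℝ) : ℂ) * M i j) := fun i =>
    AWRB_Bd.sum _ fun j _ => ((hh.ent i j).mulc (M i j)).mono (mul_le_mul_of_nonneg_right (hM i j) hC0)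
  have s3 := AWRB_Bd.sum Finset.univ fun i (_ : i ∈ (Finset.univ : Finset (Fin d))) => s2 i
  refine (s1.add s3).mono ?_
  simp only [Finset.sum_const, Finset.card_univ, Fintype.card_fin, nsmul_eq_mul]
  unfold AWRB_c1
  rw [add_mul]
  refine add_le_add ?_ (le_of_eq (by ring))
  have h1 : ρ + d * m ≤ (ρ + d) * m := by
    rw [add_mul]
    have := le_mul_of_one_le_right hρ0 hm
    linarith
  calc (d : ℝ) * (d * (d * (2 ^ K * C * (2 ^ K * 1 * (ρ + d * m))))) ≤ d * (d * (d * (2 ^ K * C * (2 ^ K * 1 * ((ρ + d) * m))))) := by gcongr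
    _ = d * (d * (d * (2 ^ K * C * (2 ^ K * 1 * (ρ + d))))) * m := by ring

end ent

/-- **vd:AWRB** the remainder of the eikonal equation is of third order, with all derivatives bounded by the square of the size of the matrix. -/
theorem AWRB_proof (hAHLD : AHLD_stmt) : AWRB_stmt := by
  intro d Γ _ _ K k B r Kd hF
  obtain ⟨C0, hC1, hC⟩ := hAHLD d Γ K k B (r + 1) (max Kd 3 + 2)
  have hC0 : 0 ≤ C0 := zero_le_one.trans hC1
  have hρ0 : 0 ≤ |r| := abs_nonneg r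
  have c3 : 0 ≤ AWRB_c3 d (max Kd 3) C0 |r| := by
    unfold AWRB_c3
    positivity
  have c1 : 0 ≤ AWRB_c1 d (max Kd 3) C0 |r| := by
    unfold AWRB_c1
    positivity
  refine ⟨1 + AWRB_c3 d (max Kd 3) C0 |r| + AWRB_c1 d (max Kd 3) C0 |r|, by linarith, fun G q M m v hG hx hξ hm hM hv => ?_⟩
  obtain ⟨-, -, hs, -, hb⟩ := hC G hF hG
  have hm0 : 0 ≤ m := zero_le_one.trans hm
  have hC' : ∀ v : V d, ‖v‖ ≤ 1 → ∀ k ≤ max Kd 3 + 2, ‖iteratedFDeriv ℝ k (IG G) (q.1 + v)‖ ≤ C0 := fun v hv k hk =>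
    ((hb (q.1 + v) ((norm_add_le _ _).trans (add_le_add hx hv))).2.1 k hk).2.2.2
  have R3 := AWRB_r3 (M := M) hs hC' hC0 (hξ.trans (le_abs_self r)) hm hM
  have RO := AWRB_r3_O (M := M) hs (fun v hv k hk => hC' v hv k (by omega)) hC0 (hξ.trans (le_abs_self r)) hm hM
  have R1 := AWRB_dv (M := M) hs hC' hC0 (hξ.trans (le_abs_self r)) hm hM
  have e3 : Wr3 G q M = fun v => 1 / 2 * WhE (AWRB_A2 (IG G) q.1 v) (Wcx q.2) (Wcx q.2) +
      WhE (AWRB_A1 (IG G) q.1 v) (Wcx q.2) (M.mulVec (Wcx v)) + 1 / 2 * WhE (AWRB_A0 (IG G) q.1 v) (M.mulVec (Wcx v)) (M.mulVec (Wcx v)) := rfl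
  have e1 : Wdv G q M = fun v => (∑ i, WhE (fderiv ℝ (IG G) (q.1 + v) (EuclideanSpace.single i 1)) (Wcx (EuclideanSpace.single i 1)) (Wcx q.2 + M.mulVec (Wcx v))) +
      ∑ i, ∑ j, (((IG G (q.1 + v) (EuclideanSpace.single j 1)) i : ℝ) : ℂ) * M i j := rfl
  rw [← e3] at R3
  rw [← e1] at R1
  have l3 : AWRB_c3 d (max Kd 3) C0 |r| * m ^ 2 ≤ (1 + AWRB_c3 d (max Kd 3) C0 |r| + AWRB_c1 d (max Kd 3) C0 |r|) * m ^ 2 :=
    mul_le_mul_of_nonneg_right (by linarith) (by positivity)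
  have l1 : AWRB_c1 d (max Kd 3) C0 |r| * m ≤ (1 + AWRB_c3 d (max Kd 3) C0 |r| + AWRB_c1 d (max Kd 3) C0 |r|) * m :=
    mul_le_mul_of_nonneg_right (by linarith) hm0
  refine ⟨R3.sm.contDiffAt, R1.sm.contDiffAt, fun j hj => ?_, fun j hj => (R3.bd j (hj.trans (le_max_left _ _)) v hv).trans l3, ?_,
    fun j hj => (R1.bd j (hj.trans (le_max_left _ _)) v hv).trans l1⟩
  · have h1 := AWRB_van (Wr3 G q M) (AWRB_c3 d (max Kd 3) C0 |r| * m ^ 2) _ (by positivity) (fun v _ => R3.sm.contDiffAt)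
      (fun v hv => R3.bd 3 (le_max_right _ _) v hv) (fun v hv => RO v hv) v hv j hj
    exact h1.trans (mul_le_mul_of_nonneg_right l3 (by positivity))
  · have h1 := AWRB_mv (Wdv G q M) 1 (AWRB_c1 d (max Kd 3) C0 |r| * m) zero_le_one (fun x _ => R1.sm.contDiffAt.differentiableAt (by simp))
      (fun x hx => R1.bd 1 ((by norm_num : 1 ≤ 3).trans (le_max_right _ _)) x hx) v hv
    exact h1.trans (mul_le_mul_of_nonneg_right l1 (norm_nonneg v))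

end

end Pool.Agent.VD
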